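import Pool.Agent.N356.SP.Defs4

set_option autoImplicit false

/-!
# KS8: trigonometric polynomials with nonnegative coefficients form a graded cone
-/

namespace Pool.Agent.N97.LS

open Finset Pool.Agent.H384R3.SPk Pool.Agent.N356.SP

lemma e_cont (n : ℤ) : Continuous (fun x : ℝ => e n x) := by
  show Continuous (fun x : ℝ => Complex.exp (2 * Real.pi * Complex.I * n * x))
  fun_prop

/-- trigonometric polynomials with nonnegative coefficients and frequencies in the class `c` -/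
def Pc (m : ℕ) (c : ZMod m) : Set C(ℝ, ℂ) :=
  {F | ∃ (ι : Type) (s : Finset ι) (a : ι → ℝ) (n : ι → ℤ),
    (∀ i ∈ s, 0 ≤ a i) ∧ (∀ i ∈ s, ((n i : ℤ) : ZMod m) = c) ∧
      ∀ x, F x = ∑ i ∈ s, (a i : ℂ) * e (n i) x}

lemma Pc_zero (m : ℕ) (c : ZMod m) : (0 : C(ℝ, ℂ)) ∈ Pc m c :=
  ⟨Unit, ∅, fun _ => 0, fun _ => 0, by simp, by simp, by simp⟩

lemma Pc_e (m : ℕ) (n : ℤ) : (⟨fun x => e n x, e_cont n⟩ : C(ℝ, ℂ)) ∈ Pc m (n : ZMod m) :=
  ⟨Unit, {()}, fun _ => 1, fun _ => n, by simp, by simp, by simp⟩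

lemma Pc_one (m : ℕ) : (1 : C(ℝ, ℂ)) ∈ Pc m 0 :=
  ⟨Unit, {()}, fun _ => 1, fun _ => 0, by simp, by simp, fun x => by
    simp [Pool.Agent.H384R3.SPk.C.e_zero]⟩

lemma Pc_add (m : ℕ) (c : ZMod m) (F G : C(ℝ, ℂ)) (hF : F ∈ Pc m c) (hG : G ∈ Pc m c) :
    F + G ∈ Pc m c := by
  obtain ⟨ι, s, a, n, h1, h2, h3⟩ := hF
  obtain ⟨κ, t, b, k, g1, g2, g3⟩ := hG
  refine ⟨ι ⊕ κ, s.disjSum t, Sum.elim a b, Sum.elim n k, ?_, ?_, ?_⟩
  · rintro (i | i) hi
    · exact h1 i (inl_mem_disjSum.1 hi)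
    · exact g1 i (inr_mem_disjSum.1 hi)
  · rintro (i | i) hi
    · exact h2 i (inl_mem_disjSum.1 hi)
    · exact g2 i (inr_mem_disjSum.1 hi)
  · intro x
    rw [sum_disjSum, ContinuousMap.add_apply, h3, g3]
    rfl

lemma Pc_mul (m : ℕ) (c d : ZMod m) (F G : C(ℝ, ℂ)) (hF : F ∈ Pc m c) (hG : G ∈ Pc m d) :
    F * G ∈ Pc m (c + d) := by
  obtain ⟨ι, s, a, n, h1, h2, h3⟩ := hF
  obtain ⟨κ, t, b, k, g1, g2, g3⟩ := hG
  refine ⟨ι × κ, s ×ˢ t, fun i => a i.1 * b i.2, fun i => n i.1 + k i.2, ?_, ?_, ?_⟩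
  · rintro ⟨i, j⟩ hi
    exact mul_nonneg (h1 i (mem_product.1 hi).1) (g1 j (mem_product.1 hi).2)
  · rintro ⟨i, j⟩ hi
    push_cast
    rw [h2 i (mem_product.1 hi).1, g2 j (mem_product.1 hi).2]
  · intro x
    rw [ContinuousMap.mul_apply, h3, g3, sum_mul_sum, sum_product]
    refine sum_congr rfl fun i _ => sum_congr rfl fun j _ => ?_
    show _ = (((a i * b j : ℝ)) : ℂ) * e (n i + k j) x
    have h5 : e (n i + k j) x = e (n i) x * e (k j) x := Pool.Agent.H384R3.SPk.C.e_add _ _ _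
    rw [h5]
    push_cast
    ring

lemma Pc_smul (m : ℕ) (c : ZMod m) (r : ℝ) (F : C(ℝ, ℂ)) (hr : 0 ≤ r) (hF : F ∈ Pc m c) :
    r • F ∈ Pc m c := by
  obtain ⟨ι, s, a, n, h1, h2, h3⟩ := hF
  refine ⟨ι, s, fun i => r * a i, n, fun i hi => mul_nonneg hr (h1 i hi), h2, fun x => ?_⟩
  rw [ContinuousMap.smul_apply, h3, smul_sum]
  refine sum_congr rfl fun i _ => ?_
  rw [Complex.real_smul]
  push_cast
  ring

lemma Pc_sum (m : ℕ) (c : ZMod m) {ι : Type} (s : Finset ι) (F : ι → C(ℝ, ℂ))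
    (h : ∀ i ∈ s, F i ∈ Pc m c) : ∑ i ∈ s, F i ∈ Pc m c := by
  classical
  induction s using Finset.induction_on with
  | empty => simpa using Pc_zero m c
  | insert i s hi ih =>
    rw [sum_insert hi]
    exact Pc_add m c _ _ (h i (mem_insert_self _ _)) (ih fun j hj => h j (mem_insert_of_mem hj))

/-- the cone -/
def coneT (m : ℕ) : Cone (ZMod m) C(ℝ, ℂ) where
  P := Pc m
  zero := Pc_zero m
  one := Pc_one m
  add := Pc_add m
  mul := Pc_mul m
  smul := Pc_smul m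

/-- the functional -/
noncomputable def LT : C(ℝ, ℂ) →ₗ[ℝ] ℝ where
  toFun F := (∫ x in (0:ℝ)..1, F x).re
  map_add' F G := by
    have h : ∫ x in (0:ℝ)..1, (F + G) x = (∫ x in (0:ℝ)..1, F x) + ∫ x in (0:ℝ)..1, G x := by
      simp only [ContinuousMap.add_apply]
      exact intervalIntegral.integral_add (F.continuous.intervalIntegrable _ _)
        (G.continuous.intervalIntegrable _ _)
    rw [h, Complex.add_re]
  map_smul' r F := by
    have h : ∫ x in (0:ℝ)..1, (r • F) x = r • ∫ x in (0:ℝ)..1, F x := by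
      simp only [ContinuousMap.smul_apply]
      exact intervalIntegral.integral_smul _ _
    rw [h, Complex.smul_re]
    rfl

lemma LT_eq {F : C(ℝ, ℂ)} {ι : Type} {s : Finset ι} {a : ι → ℝ} {n : ι → ℤ}
    (h : ∀ x, F x = ∑ i ∈ s, (a i : ℂ) * e (n i) x) :
    LT F = ∑ i ∈ s, if n i = 0 then a i else 0 := by
  show (∫ x in (0:ℝ)..1, F x).re = _
  simp_rw [h]
  rw [intervalIntegral.integral_finsetSum]
  · rw [Complex.re_sum]
    refine sum_congr rfl fun i _ => ?_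
    rw [intervalIntegral.integral_const_mul, Pool.Agent.H384R3.SPk.C.ortho]
    split_ifs <;> simp
  · intro i _
    exact (continuous_const.mul (e_cont (n i))).intervalIntegrable _ _

theorem exists_cone (m : ℕ) : ∃ (K : Cone (ZMod m) C(ℝ, ℂ)) (L : C(ℝ, ℂ) →ₗ[ℝ] ℝ), IsFun K L ∧
    (∀ F : C(ℝ, ℂ), L F = (∫ x in (0:ℝ)..1, F x).re) ∧
    ∀ f : ℤ →₀ ℝ, (∀ n, 0 ≤ f n) → ∀ c : ZMod m, ∃ F ∈ K.P c, ∀ x, F x = cl m f c x := by
  refine ⟨coneT m, LT, ⟨?_, ?_⟩, fun F => rfl, ?_⟩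
  · rintro F ⟨ι, s, a, n, h1, h2, h3⟩
    rw [LT_eq h3]
    refine sum_nonneg fun i hi => ?_
    split_ifs
    · exact h1 i hi
    · exact le_rfl
  · rintro c hc F ⟨ι, s, a, n, h1, h2, h3⟩
    rw [LT_eq h3]
    refine sum_eq_zero fun i hi => ?_
    split_ifs with h
    · exfalso
      apply hc
      rw [← h2 i hi, h]
      simp
    · rfl
  · intro f hf c
    refine ⟨∑ n ∈ f.support, f n • ((if ((n : ℤ) : ZMod m) = c then ⟨fun x => e n x, e_cont n⟩ else 0) +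
      (if ((-n : ℤ) : ZMod m) = c then ⟨fun x => e (-n) x, e_cont (-n)⟩ else 0) : C(ℝ, ℂ)), ?_, ?_⟩
    · refine Pc_sum m c _ _ fun n _ => Pc_smul m c _ _ (hf n) (Pc_add m c _ _ ?_ ?_)
      · split_ifs with h
        · rw [← h]
          exact Pc_e m n
        · exact Pc_zero m c
      · split_ifs with h
        · rw [← h]
          exact Pc_e m (-n)
        · exact Pc_zero m c
    · intro x
      unfold cl Finsupp.sum
      rw [ContinuousMap.sum_apply]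
      refine sum_congr rfl fun n _ => ?_
      rw [ContinuousMap.smul_apply, ContinuousMap.add_apply, Complex.real_smul]
      congr 2
      · split_ifs <;> rfl
      · split_ifs <;> rfl

end Pool.Agent.N97.LS
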